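import Pool.Agent.Lib.Pad47bbF.Face
import Pool.Agent.Lib.Pad47bbD.Push

/-!
The class of all projective `ℚ`-factorial klt Calabi-Yau pairs: the facts of birational geometry
which the reduction of the cone conjecture to varieties with trivial canonical divisor uses.
-/

open Set Topology

namespace Pool.Agent.Lib.Pad47bbR

open Pool.Agent.Lib.Pad47bb Pool.Agent.Lib.Pad47bbF Pool.Agent.Lib.Pad47bbD

/-- `p` is the pull-back of classes by a contraction with connected fibres `f : X → Y`, seen by the
cone `K` of `X` and the cone `K'` of `Y`: it is injective, `p⁻¹ K = K'`, the classes of `K` in the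
image form a face of `K`, every lattice class in the image is up to a multiple the image of a
lattice class, and every element of `G` which stabilizes the image comes from an element of `G'`. -/
structure IsPullback {V W : Type*} [NormedAddCommGroup V] [NormedSpace ℝ V]
    [NormedAddCommGroup W] [NormedSpace ℝ W] (L : Submodule ℤ V) (K : PointedCone ℝ V)
    (G : Subgroup (V ≃ₗ[ℝ] V)) (L' : Submodule ℤ W) (K' : PointedCone ℝ W)
    (G' : Subgroup (W ≃ₗ[ℝ] W)) (p : W →ₗ[ℝ] V) : Prop where
  injective : Function.Injective p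
  mem_iff : ∀ w, p w ∈ K ↔ w ∈ K'
  face : ∀ x ∈ K, ∀ y ∈ K, (∃ w, p w = x + y) → ∃ w, p w = x
  lattice : ∀ x ∈ L, (∃ w, p w = x) → ∃ n : ℕ, 0 < n ∧ ∃ m ∈ L', p m = (n : ℝ) • x
  descend : ∀ g ∈ G, (∀ w, ∃ v, p v = g (p w)) → ∃ g' ∈ G', ∀ w, p (g' w) = g (p w)

/-- `π` is the push-forward of classes by a birational contraction `X ⇢ Y` of the prime divisors
in the finite set `S`, all of them exceptional for one big movable class of `X`; `f` and `f'` are
the families of the classes of the prime divisors of `X` and `Y`; the prime divisors of `Y` are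
those of `X` which are not in `S`, by `e`. -/
structure IsContraction {V U : Type*} [NormedAddCommGroup V] [NormedSpace ℝ V]
    [NormedAddCommGroup U] [NormedSpace ℝ U] {J J' : Type*} (L : Submodule ℤ V) (f : J → V)
    (G : Subgroup (V ≃ₗ[ℝ] V)) (L' : Submodule ℤ U) (f' : J' → U)
    (G' : Subgroup (U ≃ₗ[ℝ] U)) (S : Finset J) (e : J' ≃ {j // j ∉ S}) (π : V →ₗ[ℝ] U) :
    Prop where
  contractible : ContractibleF f S
  surjective : Function.Surjective π
  ker : ∀ x, π x = 0 ↔ x ∈ Submodule.span ℝ (f '' (S : Set J))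
  lattice : ∀ x ∈ L, π x ∈ L'
  prime : ∀ k, f' k = π (f (e k))
  descend : ∀ g ∈ G, g '' (f '' (S : Set J)) = f '' (S : Set J) →
    ∃ g' ∈ G', ∀ x, g' (π x) = π (g x)

/-- The facts which we use of the class of all projective `ℚ`-factorial klt Calabi-Yau pairs
`(X, Δ)`. -/
structure PairClass (ι : Type*) (V : ι → Type*) (J : ι → Type*) [∀ i, NormedAddCommGroup (V i)]
    [∀ i, NormedSpace ℝ (V i)] where
  /-- the lattice of the classes of the divisors of `X` -/
  L : ∀ i, Submodule ℤ (V i)
  /-- the class of a prime divisor of `X` -/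
  prime : ∀ i, J i → V i
  /-- the nef cone of `X` -/
  nef : ∀ i, PointedCone ℝ (V i)
  /-- the action of `Aut(X)` -/
  aut : ∀ i, Subgroup (V i ≃ₗ[ℝ] V i)
  /-- the action of `PsAut(X)` -/
  psaut : ∀ i, Subgroup (V i ≃ₗ[ℝ] V i)
  /-- the action of `Aut(X, Δ)` -/
  autD : ∀ i, Subgroup (V i ≃ₗ[ℝ] V i)
  /-- the action of `PsAut(X, Δ)` -/
  psautD : ∀ i, Subgroup (V i ≃ₗ[ℝ] V i)
  /-- the pairs `(X, 0)` with `X` terminal and `K_X ∼ 0` -/
  terminal : Set ι
  discrete : ∀ i, DiscreteTopology (L i)
  zlattice : ∀ i, @IsZLattice ℝ _ (V i) _ _ (L i) (discrete i)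
  divisors : ∀ i, FamData (L i) (prime i) (psaut i)
  nef_closed : ∀ i, IsClosed (nef i : Set (V i))
  nef_interior : ∀ i, (interior (nef i : Set (V i))).Nonempty
  nef_le : ∀ i, nef i ≤ movF (prime i)
  aut_nef : ∀ i, ∀ g ∈ aut i, ∀ x ∈ nef i, g x ∈ nef i
  aut_le : ∀ i, aut i ≤ psaut i
  autD_le : ∀ i, autD i ≤ aut i
  psautD_le : ∀ i, psautD i ≤ psaut i
  /-- Let `f : Y → X` be the Fermat fibration of `(X, Δ)`, `T → Y` a `ℚ`-factorial terminalization
  and `Z → Y` a small `ℚ`-factorialization. The pull-back of the nef classes by `T → X` is a face,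
  `T ⇢ Z` is a birational contraction, and the pull-back of the movable classes by `Z → X` is a
  face; automorphisms of `T` and pseudo-automorphisms of `Z` which preserve the fibration to `X`
  preserve its discriminant `Δ`. -/
  fermat : ∀ i, ∃ t ∈ terminal, ∃ z,
    (∃ p, IsPullback (L t) (nef t ⊓ eff (range (prime t))) (aut t) (L i)
      (nef i ⊓ eff (range (prime i))) (autD i) p) ∧
    (∃ S e π, IsContraction (L t) (prime t) (psaut t) (L z) (prime z) (psaut z) S e π) ∧
    ∃ q, IsPullback (L z) (movF (prime z) ⊓ eff (range (prime z))) (psaut z) (L i)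
      (movF (prime i) ⊓ eff (range (prime i))) (psautD i) q

namespace PairClass

variable {ι : Type*} {V : ι → Type*} {J : ι → Type*} [∀ i, NormedAddCommGroup (V i)]
  [∀ i, NormedSpace ℝ (V i)] (C : PairClass ι V J)

instance (i : ι) : DiscreteTopology (C.L i) := C.discrete i

instance (i : ι) : IsZLattice ℝ (C.L i) := C.zlattice i

/-- the effective nef cone -/
def nefE (i : ι) : PointedCone ℝ (V i) := C.nef i ⊓ eff (range (C.prime i))

/-- the effective movable cone -/
def movE (i : ι) : PointedCone ℝ (V i) := movF (C.prime i) ⊓ eff (range (C.prime i))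

/-- Q1 for the pair `i` -/
def Q1 (i : ι) : Prop :=
  HasRPFD (C.L i) (C.aut i) (C.nefE i) ∧ HasRPFD (C.L i) (C.psaut i) (C.movE i)

/-- the stronger form of Q1, with the groups `Aut(X, Δ)` and `PsAut(X, Δ)` -/
def Q1Strong (i : ι) : Prop :=
  HasRPFD (C.L i) (C.autD i) (C.nefE i) ∧ HasRPFD (C.L i) (C.psautD i) (C.movE i)

end PairClass

end Pool.Agent.Lib.Pad47bbR
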