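import Pool.Agent.Lib.Pad47bbR.Class

/-!
The cone conjecture for all klt Calabi-Yau pairs reduces to terminal varieties with `K ∼ 0`.
-/

open Set Topology

namespace Pool.Agent.Lib.Pad47bbR

open Pool.Agent.Lib.Pad47bb Pool.Agent.Lib.Pad47bbF Pool.Agent.Lib.Pad47bbD
  Pool.Agent.Lib.Pad47bbM

/-- A larger group of symmetries. -/
theorem hasRPFD_mono {V : Type*} [NormedAddCommGroup V] [NormedSpace ℝ V] [FiniteDimensional ℝ V]
    {L : Submodule ℤ V} [DiscreteTopology L] [IsZLattice ℝ L] {K : PointedCone ℝ V}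
    {G G' : Subgroup (V ≃ₗ[ℝ] V)} (S : Setting L K G) (hG : G' ≤ G) (h : HasRPFD L G' K) :
    HasRPFD L G K := by
  obtain ⟨P, hP, hcov, -⟩ := h
  refine exists_fundDomain S hP (Subset.antisymm ?_ ?_)
  · rw [hcov]
    exact biUnion_mono (fun g hg => hG hg) fun g _ => Subset.rfl
  · refine iUnion₂_subset fun g hg => ?_
    rintro _ ⟨y, hy, rfl⟩
    refine S.map_cone g hg y ?_
    show y ∈ (K : Set V)
    rw [hcov]
    exact mem_biUnion (one_mem G') ⟨y, hy, rfl⟩

section pullback

variable {V W : Type*} [NormedAddCommGroup V] [NormedSpace ℝ V] [FiniteDimensional ℝ V]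
  [NormedAddCommGroup W] [NormedSpace ℝ W] [FiniteDimensional ℝ W]
  {L : Submodule ℤ V} [DiscreteTopology L] [IsZLattice ℝ L] {K : PointedCone ℝ V}
  {G : Subgroup (V ≃ₗ[ℝ] V)} {L' : Submodule ℤ W} [DiscreteTopology L'] [IsZLattice ℝ L']
  {K' : PointedCone ℝ W} {G' : Subgroup (W ≃ₗ[ℝ] W)} {p : W →ₗ[ℝ] V}

/-- Fundamental domains descend to the target of a contraction. -/
theorem hasRPFD_pullback (S : Setting L K G) (S' : Setting L' K' G')
    (hp : IsPullback L K G L' K' G' p) (h : HasRPFD L G K) : HasRPFD L' G' K' := by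
  have hK : K.comap p = K' := by
    ext w
    exact hp.mem_iff w
  have hF : IsFaceOf L K G (G ⊓ stabRange p) p L' G' := by
    refine ⟨hp.injective, hp.face, ?_, hp.lattice, ?_, ?_, ?_⟩
    · rw [hK]; exact S'.interior_nonempty
    · rw [Subgroup.subgroupOf_self]; infer_instance
    · rw [hK]; exact ⟨S'.map_lattice, S'.map_cone⟩
    · intro d hd
      obtain ⟨g', hg', h1⟩ := hp.descend d hd.1 fun w => (hd.2 (p w)).2 ⟨w, rfl⟩
      exact ⟨g', hg', h1⟩
  have h2 := face_step S hF h
  rwa [hK] at h2

end pullback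

section relabel

variable {U : Type*} [NormedAddCommGroup U] [NormedSpace ℝ U] {J J' : Type*}

/-- A bijection of the indices does not change the cones. -/
theorem movF_comp (f : J → U) (e : J' ≃ J) : movF (f ∘ e) = movF f := by
  have h1 : range (f ∘ e) = range f := e.surjective.range_comp f
  ext x
  rw [mem_movF, mem_movF, h1]
  refine and_congr_right fun _ => ?_
  have h2 : ∀ k, (f ∘ e) '' {k}ᶜ = f '' {e k}ᶜ := by
    intro k
    rw [image_comp, image_compl_eq e.bijective, image_singleton]
  simp only [h2]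
  exact ⟨fun h i => by simpa using h (e.symm i), fun h i => h (e i)⟩

theorem famData_comp {L : Submodule ℤ U} {f : J → U} {G : Subgroup (U ≃ₗ[ℝ] U)} (e : J' ≃ J)
    (T : FamData L (f ∘ e) G) : FamData L f G where
  lattice := fun i => by
    have := T.lattice (e.symm i)
    rwa [Function.comp_apply, Equiv.apply_symm_apply] at this
  salient := by
    have h1 : range (f ∘ e) = range f := e.surjective.range_comp f
    have := T.salient
    rwa [h1] at this
  interior_nonempty := by
    have := T.interior_nonempty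
    rwa [movF_comp] at this
  map_lattice := T.map_lattice
  perm := by
    intro g hg
    obtain ⟨σ, hσ⟩ := T.perm g hg
    refine ⟨(e.symm.trans σ).trans e, fun i => ?_⟩
    have := hσ (e.symm i)
    rw [Function.comp_apply, Function.comp_apply, Equiv.apply_symm_apply] at this
    exact this

end relabel

section contraction

variable {V U : Type*} [NormedAddCommGroup V] [NormedSpace ℝ V] [FiniteDimensional ℝ V]
  [NormedAddCommGroup U] [NormedSpace ℝ U] [FiniteDimensional ℝ U] {J J' : Type*}
  {L : Submodule ℤ V} [DiscreteTopology L] [IsZLattice ℝ L] {f : J → V}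
  {G : Subgroup (V ≃ₗ[ℝ] V)} {L' : Submodule ℤ U} [DiscreteTopology L'] [IsZLattice ℝ L']
  {f' : J' → U} {G' : Subgroup (U ≃ₗ[ℝ] U)} {S : Finset J} {e : J' ≃ {j // j ∉ S}}
  {π : V →ₗ[ℝ] U}

/-- Fundamental domains descend to the target of a birational contraction. -/
theorem hasRPFD_contraction (T : FamData L f G) (T' : FamData L' f' G')
    (hC : IsContraction L f G L' f' G' S e π) (h : HasRPFD L G (movF f ⊓ eff (range f))) :
    HasRPFD L' G' (movF f' ⊓ eff (range f')) := by
  have hf' : f' = push f S π ∘ e := funext hC.prime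
  subst hf'
  have h1 := T.descent hC.contractible hC.surjective hC.ker hC.lattice (famData_comp e T')
    hC.descend h
  rw [movF_comp, e.surjective.range_comp]
  exact h1

end contraction

namespace PairClass

variable {ι : Type*} {V : ι → Type*} {J : ι → Type*} [∀ i, NormedAddCommGroup (V i)]
  [∀ i, NormedSpace ℝ (V i)] [∀ i, FiniteDimensional ℝ (V i)] (C : PairClass ι V J)

theorem dataMov (i : ι) : Data (C.L i) (movF (C.prime i)) (eff (range (C.prime i))) (C.psaut i) :=
  (C.divisors i).divData.data

theorem dataMovD (i : ι) :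
    Data (C.L i) (movF (C.prime i)) (eff (range (C.prime i))) (C.psautD i) where
  closed := (C.dataMov i).closed
  le := (C.dataMov i).le
  salient := (C.dataMov i).salient
  int_nonempty := (C.dataMov i).int_nonempty
  gen := (C.dataMov i).gen
  map_lattice := fun g hg => (C.dataMov i).map_lattice g (C.psautD_le i hg)
  map_N := fun g hg => (C.dataMov i).map_N g (C.psautD_le i hg)
  map_E := fun g hg => (C.dataMov i).map_E g (C.psautD_le i hg)

theorem dataNef (i : ι) : Data (C.L i) (C.nef i) (eff (range (C.prime i))) (C.aut i) where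
  closed := C.nef_closed i
  le := fun _ hx => (C.dataMov i).le (C.nef_le i hx)
  salient := (C.dataMov i).salient
  int_nonempty := C.nef_interior i
  gen := (C.dataMov i).gen
  map_lattice := fun g hg => (C.dataMov i).map_lattice g (C.aut_le i hg)
  map_N := C.aut_nef i
  map_E := fun g hg => (C.dataMov i).map_E g (C.aut_le i hg)

theorem dataNefD (i : ι) : Data (C.L i) (C.nef i) (eff (range (C.prime i))) (C.autD i) where
  closed := C.nef_closed i
  le := (C.dataNef i).le
  salient := (C.dataMov i).salient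
  int_nonempty := C.nef_interior i
  gen := (C.dataMov i).gen
  map_lattice := fun g hg => (C.dataNef i).map_lattice g (C.autD_le i hg)
  map_N := fun g hg => C.aut_nef i g (C.autD_le i hg)
  map_E := fun g hg => (C.dataNef i).map_E g (C.autD_le i hg)

/-- The strong form implies Q1. -/
theorem q1_of_strong {i : ι} (h : C.Q1Strong i) : C.Q1 i :=
  ⟨hasRPFD_mono (C.dataNef i).settingNE (C.autD_le i) h.1,
    hasRPFD_mono (C.dataMov i).settingNE (C.psautD_le i) h.2⟩

/-- Q1 for the terminal varieties with `K ∼ 0` implies the strong form of Q1 for all pairs. -/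
theorem strong_of_terminal (h : ∀ t ∈ C.terminal, C.Q1 t) (i : ι) : C.Q1Strong i := by
  obtain ⟨t, ht, z, ⟨p, hp⟩, ⟨S, e, π, hπ⟩, ⟨q, hq⟩⟩ := C.fermat i
  obtain ⟨h1, h2⟩ := h t ht
  refine ⟨hasRPFD_pullback (C.dataNef t).settingNE (C.dataNefD i).settingNE hp h1, ?_⟩
  refine hasRPFD_pullback (C.dataMov z).settingNE (C.dataMovD i).settingNE hq ?_
  exact hasRPFD_contraction (C.divisors t) (C.divisors z) hπ h2

theorem tfae : List.TFAE [∀ i, C.Q1 i, ∀ i, C.Q1Strong i, ∀ t ∈ C.terminal, C.Q1 t] := by
  tfae_have 2 → 1 := fun h i => C.q1_of_strong (h i)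
  tfae_have 1 → 3 := fun h t _ => h t
  tfae_have 3 → 2 := fun h i => C.strong_of_terminal h i
  tfae_finish

end PairClass

end Pool.Agent.Lib.Pad47bbR
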